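import Pool.Agent.V8H32.CF.Cay

/-! Monomials as variables: every system of equations becomes a system of quadratic equations, and then
one cubic equation `∑ y_e h_e(t) = 1`, which is smooth. -/

set_option autoImplicit false

namespace Pool.Agent.V8H32.CU
open Finset MvPolynomial
open Pool.Agent.V8H32.CF (cayley1N)
open scoped Classical

variable {σ : Type} [Fintype σ] {D : ℕ}

/-- the exponents -/
noncomputable def BB (σ : Type) [Fintype σ] (D : ℕ) : σ →₀ ℕ := Finsupp.equivFunOnFinite.symm (fun _ => D)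

/-- the new variables -/
abbrev TT (σ : Type) [Fintype σ] (D : ℕ) : Type := {a : σ →₀ ℕ // a ∈ Finset.Iic (BB σ D)}

lemma mem_TT {a : σ →₀ ℕ} : a ∈ Finset.Iic (BB σ D) ↔ ∀ i, a i ≤ D := by
  rw [Finset.mem_Iic]
  constructor
  · intro h i
    have := h i
    unfold BB at this
    simpa using this
  · intro h i
    unfold BB
    simpa using h i

noncomputable def t0 : TT σ D := ⟨0, mem_TT.2 (fun i => by simp)⟩

noncomputable def te (hD : 1 ≤ D) (i : σ) : TT σ D :=
  ⟨Finsupp.single i 1, mem_TT.2 (fun j => by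
    by_cases h : i = j
    · subst h; simp; omega
    · rw [Finsupp.single_eq_of_ne (Ne.symm h)]; omega)⟩

noncomputable def tsub (b : TT σ D) (i : σ) : TT σ D :=
  ⟨b.1 - Finsupp.single i 1, mem_TT.2 (fun j => by
    have := mem_TT.1 b.2 j
    rw [Finsupp.tsub_apply]
    omega)⟩

variable {R : Type} [CommRing R]

/-- the index set of the equations -/
abbrev Rh (σ : Type) [Fintype σ] (D : ℕ) (X0 : Finset (MvPolynomial σ R)) : Type :=
  Unit ⊕ (TT σ D × σ) ⊕ X0

/-- the equations of degree at most two: `t_0 = 1`, `t_b = t_{b - e_i} t_{e_i}` and the original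
equations, which are linear in the monomials -/
noncomputable def hh (hD : 1 ≤ D) (X0 : Finset (MvPolynomial σ R)) : Rh σ D X0 → MvPolynomial (TT σ D) R
  | Sum.inl _ => X t0 - 1
  | Sum.inr (Sum.inl p) => if p.1.1 p.2 = 0 then 0 else X p.1 - X (tsub p.1 p.2) * X (te hD p.2)
  | Sum.inr (Sum.inr f) => ∑ a : TT σ D, C (coeff a.1 f.1) * X a

lemma hh_deg (hD : 1 ≤ D) (X0 : Finset (MvPolynomial σ R)) (e : Rh σ D X0) :
    (hh hD X0 e).totalDegree ≤ 2 := by
  rcases e with _ | p | f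
  · change (X t0 - 1 : MvPolynomial (TT σ D) R).totalDegree ≤ 2
    refine (totalDegree_sub _ _).trans (max_le ?_ ?_)
    · exact (isHomogeneous_X R _).totalDegree_le.trans (by norm_num)
    · rw [totalDegree_one]; norm_num
  · change (if p.1.1 p.2 = 0 then (0 : MvPolynomial (TT σ D) R) else
      X p.1 - X (tsub p.1 p.2) * X (te hD p.2)).totalDegree ≤ 2
    split_ifs
    · rw [totalDegree_zero]; norm_num
    · refine (totalDegree_sub _ _).trans (max_le ?_ ?_)
      · exact (isHomogeneous_X R _).totalDegree_le.trans (by norm_num)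
      · exact ((isHomogeneous_X R _).mul (isHomogeneous_X R _)).totalDegree_le
  · change (∑ a : TT σ D, C (coeff a.1 f.1) * X a : MvPolynomial (TT σ D) R).totalDegree ≤ 2
    refine totalDegree_finsetSum_le (fun a _ => ?_)
    have := (isHomogeneous_C (TT σ D) (coeff a.1 f.1)).mul (isHomogeneous_X R a)
    exact this.totalDegree_le.trans (by norm_num)

variable {κ : Type} [Field κ] (φ : R →+* κ)

/-- monomials -/
noncomputable def mon (x : σ → κ) (a : σ →₀ ℕ) : κ := ∏ i, x i ^ a i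

lemma mon_sub (x : σ → κ) (a : σ →₀ ℕ) (i : σ) (h : a i ≠ 0) :
    mon x a = mon x (a - Finsupp.single i 1) * x i := by
  unfold mon
  rw [← Finset.mul_prod_erase _ _ (mem_univ i), ← Finset.mul_prod_erase _ _ (mem_univ i)]
  have h1 : ∀ j ∈ univ.erase i, x j ^ (a - Finsupp.single i 1 : σ →₀ ℕ) j = x j ^ a j := by
    intro j hj
    rw [Finsupp.tsub_apply, Finsupp.single_eq_of_ne (Finset.ne_of_mem_erase hj), Nat.sub_zero]
  rw [Finset.prod_congr rfl h1, Finsupp.tsub_apply, Finsupp.single_eq_same]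
  obtain ⟨k, hk⟩ := Nat.exists_eq_succ_of_ne_zero h
  rw [hk, Nat.succ_sub_one, pow_succ]
  ring

lemma mon_zero (x : σ → κ) : mon x 0 = 1 := by unfold mon; simp

lemma mon_single (x : σ → κ) (i : σ) : mon x (Finsupp.single i 1) = x i := by
  rw [mon_sub x _ i (by simp), tsub_self, mon_zero, one_mul]

lemma ev_eq (f : MvPolynomial σ R) (hf : ∀ a ∈ f.support, ∀ i, a i ≤ D) (x : σ → κ) :
    eval₂ φ x f = ∑ a : TT σ D, φ (coeff a.1 f) * mon x a.1 := by
  rw [eval₂_eq']
  rw [Finset.sum_coe_sort (Finset.Iic (BB σ D)) (fun a => φ (coeff a f) * mon x a)]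
  apply Finset.sum_subset
  · intro a ha
    exact mem_TT.2 (hf a ha)
  · intro a _ ha
    rw [notMem_support_iff] at ha
    rw [ha, map_zero, zero_mul]

lemma ev0 (hD : 1 ≤ D) (X0 : Finset (MvPolynomial σ R)) (t : TT σ D → κ) :
    eval₂ φ t (hh hD X0 (Sum.inl ())) = t t0 - 1 := by
  change eval₂ φ t (X t0 - 1) = _
  rw [eval₂_sub, eval₂_X, eval₂_one]

lemma ev1 (hD : 1 ≤ D) (X0 : Finset (MvPolynomial σ R)) (t : TT σ D → κ) (p : TT σ D × σ) :
    eval₂ φ t (hh hD X0 (Sum.inr (Sum.inl p))) =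
      if p.1.1 p.2 = 0 then 0 else t p.1 - t (tsub p.1 p.2) * t (te hD p.2) := by
  change eval₂ φ t (if p.1.1 p.2 = 0 then (0 : MvPolynomial (TT σ D) R) else
    X p.1 - X (tsub p.1 p.2) * X (te hD p.2)) = _
  split_ifs
  · exact eval₂_zero _ _
  · rw [eval₂_sub, eval₂_mul, eval₂_X, eval₂_X, eval₂_X]

lemma ev2 (hD : 1 ≤ D) (X0 : Finset (MvPolynomial σ R)) (t : TT σ D → κ) (f : X0) :
    eval₂ φ t (hh hD X0 (Sum.inr (Sum.inr f))) = ∑ a : TT σ D, φ (coeff a.1 f.1) * t a := by
  change eval₂ φ t (∑ a : TT σ D, C (coeff a.1 f.1) * X a) = _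
  rw [eval₂_sum]
  apply Finset.sum_congr rfl
  intro a _
  rw [eval₂_mul, eval₂_C, eval₂_X]

lemma struct (hD : 1 ≤ D) (X0 : Finset (MvPolynomial σ R)) (t : TT σ D → κ)
    (h : ∀ e, eval₂ φ t (hh hD X0 e) = 0) (a : TT σ D) :
    t a = mon (fun i => t (te hD i)) a.1 := by
  have h0 : t t0 = 1 := by
    have := h (Sum.inl ())
    rw [ev0, sub_eq_zero] at this
    exact this
  suffices H : ∀ N : ℕ, ∀ a : TT σ D, ∑ i, a.1 i = N → t a = mon (fun i => t (te hD i)) a.1 from
    H _ a rfl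
  intro N
  induction N with
  | zero =>
    intro a ha
    have h1 : a = t0 := by
      apply Subtype.ext
      ext i
      have := (Finset.sum_eq_zero_iff.1 ha) i (mem_univ i)
      rw [this]; rfl
    rw [h1, h0]
    change 1 = mon _ 0
    rw [mon_zero]
  | succ N ih =>
    intro a ha
    obtain ⟨i, -, hi⟩ : ∃ i ∈ univ, a.1 i ≠ 0 := by
      by_contra hcon
      push Not at hcon
      rw [Finset.sum_eq_zero hcon] at ha
      omega
    have h1 := h (Sum.inr (Sum.inl (a, i)))
    rw [ev1, if_neg hi, sub_eq_zero] at h1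
    simp only at h1
    have h2 := ih (tsub a i) (by
      have h3 : ∑ j, a.1 j = ∑ j, (tsub a i).1 j + 1 := by
        have e1 : a.1 i + ∑ j ∈ univ.erase i, a.1 j = ∑ j, a.1 j :=
          Finset.add_sum_erase univ (fun j => a.1 j) (mem_univ i)
        have e2 : (tsub a i).1 i + ∑ j ∈ univ.erase i, (tsub a i).1 j = ∑ j, (tsub a i).1 j :=
          Finset.add_sum_erase univ (fun j => (tsub a i).1 j) (mem_univ i)
        have h4 : ∀ j ∈ univ.erase i, (tsub a i).1 j = a.1 j := by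
          intro j hj
          change (a.1 - Finsupp.single i 1 : σ →₀ ℕ) j = _
          rw [Finsupp.tsub_apply, Finsupp.single_eq_of_ne (Finset.ne_of_mem_erase hj), Nat.sub_zero]
        have e3 : ∑ j ∈ univ.erase i, (tsub a i).1 j = ∑ j ∈ univ.erase i, a.1 j :=
          Finset.sum_congr rfl h4
        have h5 : (tsub a i).1 i = a.1 i - 1 := by
          change (a.1 - Finsupp.single i 1 : σ →₀ ℕ) i = _
          rw [Finsupp.tsub_apply, Finsupp.single_eq_same]
        rw [e3, h5] at e2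
        omega
      omega)
    have h6 := mon_sub (fun i => t (te hD i)) a.1 i hi
    have h7 : (tsub a i).1 = a.1 - Finsupp.single i 1 := rfl
    rw [h6, ← h7, ← h2]
    exact h1

/-- the solutions of the quadratic system are those of the original one -/
noncomputable def solEquiv (hD : 1 ≤ D) (X0 : Finset (MvPolynomial σ R))
    (hX : ∀ f ∈ X0, ∀ a ∈ f.support, ∀ i, a i ≤ D) :
    {t : TT σ D → κ // ∀ e, eval₂ φ t (hh hD X0 e) = 0} ≃
      {x : σ → κ // ∀ f ∈ X0, eval₂ φ x f = 0} where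
  toFun t := ⟨fun i => t.1 (te hD i), fun f hf => by
    have hs := struct φ hD X0 t.1 t.2
    have h1 := t.2 (Sum.inr (Sum.inr ⟨f, hf⟩))
    rw [ev2] at h1
    rw [ev_eq φ f (hX f hf)]
    refine Eq.trans ?_ h1
    apply Finset.sum_congr rfl
    intro a _
    rw [hs a]⟩
  invFun x := ⟨fun a => mon x.1 a.1, by
    intro e
    rcases e with _ | p | f
    · rw [ev0]
      change mon x.1 0 - 1 = 0
      rw [mon_zero, sub_self]
    · rw [ev1]
      split_ifs with h
      · rfl
      · have h6 := mon_sub x.1 p.1.1 p.2 h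
        have h7 : (tsub p.1 p.2).1 = p.1.1 - Finsupp.single p.2 1 := rfl
        have h8 : (te hD p.2).1 = Finsupp.single p.2 1 := rfl
        rw [h6, ← h7, h8, mon_single, sub_self]
    · rw [ev2]
      have h1 := x.2 f.1 f.2
      rw [ev_eq φ f.1 (hX f.1 f.2)] at h1
      exact h1⟩
  left_inv t := by
    apply Subtype.ext
    funext a
    exact (struct φ hD X0 t.1 t.2 a).symm
  right_inv x := by
    apply Subtype.ext
    funext i
    change mon x.1 (te hD i).1 = x.1 i
    have h8 : (te hD i).1 = Finsupp.single i 1 := rfl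
    rw [h8, mon_single]

/-- the cubic polynomial -/
noncomputable def FF (hD : 1 ≤ D) (X0 : Finset (MvPolynomial σ R)) :
    MvPolynomial (TT σ D ⊕ Rh σ D X0) R :=
  ∑ e : Rh σ D X0, X (Sum.inr e) * rename Sum.inl (hh hD X0 e)

lemma FF_deg (hD : 1 ≤ D) (X0 : Finset (MvPolynomial σ R)) : (FF hD X0).totalDegree ≤ 3 := by
  unfold FF
  refine totalDegree_finsetSum_le (fun e _ => ?_)
  refine (totalDegree_mul _ _).trans ?_
  have h1 : (X (Sum.inr e) : MvPolynomial (TT σ D ⊕ Rh σ D X0) R).totalDegree ≤ 1 :=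
    (isHomogeneous_X R _).totalDegree_le
  have h2 := (totalDegree_rename_le (Sum.inl : TT σ D → TT σ D ⊕ Rh σ D X0) (hh hD X0 e)).trans
    (hh_deg hD X0 e)
  omega

lemma FF_eval (hD : 1 ≤ D) (X0 : Finset (MvPolynomial σ R)) (u : TT σ D ⊕ Rh σ D X0 → κ) :
    eval₂ φ u (FF hD X0) = ∑ e, u (Sum.inr e) * eval₂ φ (u ∘ Sum.inl) (hh hD X0 e) := by
  unfold FF
  rw [eval₂_sum]
  apply Finset.sum_congr rfl
  intro e _
  rw [eval₂_mul, eval₂_X, eval₂_rename]

lemma FF_pderiv (hD : 1 ≤ D) (X0 : Finset (MvPolynomial σ R)) (e : Rh σ D X0) :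
    pderiv (Sum.inr e) (FF hD X0) = rename Sum.inl (hh hD X0 e) := by
  unfold FF
  rw [map_sum, Finset.sum_eq_single e]
  · rw [Derivation.leibniz, pderiv_X_self]
    have h1 : pderiv (Sum.inr e) (rename Sum.inl (hh hD X0 e) :
        MvPolynomial (TT σ D ⊕ Rh σ D X0) R) = 0 := by
      apply pderiv_eq_zero_of_notMem_vars
      intro h
      have h2 := vars_rename Sum.inl (hh hD X0 e) h
      rw [mem_image] at h2
      obtain ⟨b, -, hb⟩ := h2
      cases hb
    rw [h1]
    simp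
  · intro e' _ hne
    rw [Derivation.leibniz]
    have h1 : pderiv (Sum.inr e) (rename Sum.inl (hh hD X0 e') :
        MvPolynomial (TT σ D ⊕ Rh σ D X0) R) = 0 := by
      apply pderiv_eq_zero_of_notMem_vars
      intro h
      have h2 := vars_rename Sum.inl (hh hD X0 e') h
      rw [mem_image] at h2
      obtain ⟨b, -, hb⟩ := h2
      cases hb
    rw [h1, pderiv_X_of_ne (fun h => hne (Sum.inr_injective h))]
    simp
  · intro h; exact absurd (mem_univ _) h

/-- The affine hypersurface `F = 1` over the ring `R` is smooth: it is smooth over every field. -/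
def SmoothOne {M : ℕ} (F : MvPolynomial (Fin M) R) : Prop :=
  ∀ (k : Type) [Field k] (φ : R →+* k) (u : Fin M → k), eval₂ φ u F = 1 →
    ∃ j, eval₂ φ u (pderiv j F) ≠ 0

/-- the number of the solutions of `F = 1` -/
noncomputable def onePts {M : ℕ} (F : MvPolynomial (Fin M) R) {κ : Type} [Field κ] (φ : R →+* κ) : ℕ :=
  Nat.card {u : Fin M → κ // eval₂ φ u F = 1}

lemma FF_smooth (hD : 1 ≤ D) (X0 : Finset (MvPolynomial σ R)) {M : ℕ}
    (f : TT σ D ⊕ Rh σ D X0 ≃ Fin M) : SmoothOne (rename f (FF hD X0)) := by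
  intro k _ φ u hu
  by_contra hcon
  push Not at hcon
  have h1 : ∀ e : Rh σ D X0, eval₂ φ ((u ∘ f) ∘ Sum.inl) (hh hD X0 e) = 0 := by
    intro e
    have h2 := hcon (f (Sum.inr e))
    rw [pderiv_rename f.injective, FF_pderiv, eval₂_rename, eval₂_rename] at h2
    exact h2
  rw [eval₂_rename, FF_eval] at hu
  have h3 : ∑ e, (u ∘ f) (Sum.inr e) * eval₂ φ ((u ∘ f) ∘ Sum.inl) (hh hD X0 e) = 0 := by
    apply Finset.sum_eq_zero
    intro e _
    rw [h1 e, mul_zero]
  rw [h3] at hu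
  exact zero_ne_one hu

theorem FF_count (hD : 1 ≤ D) (X0 : Finset (MvPolynomial σ R))
    (hX : ∀ f ∈ X0, ∀ a ∈ f.support, ∀ i, a i ≤ D) [Finite κ] {M : ℕ}
    (f : TT σ D ⊕ Rh σ D X0 ≃ Fin M) :
    (onePts (rename f (FF hD X0)) φ : ℤ) = (Nat.card κ : ℤ) ^ (Nat.card (Rh σ D X0) - 1) *
      ((Nat.card κ : ℤ) ^ Nat.card (TT σ D) - Nat.card {x : σ → κ // ∀ f ∈ X0, eval₂ φ x f = 0}) := by
  have hr : 0 < Nat.card (Rh σ D X0) := by
    rw [Nat.card_pos_iff]
    exact ⟨⟨Sum.inl ()⟩, inferInstance⟩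
  have hq : 1 < Nat.card κ := Finite.one_lt_card
  have hc := cayley1N (fun (e : Rh σ D X0) (t : TT σ D → κ) => eval₂ φ t (hh hD X0 e))
  rw [Nat.card_congr (solEquiv φ hD X0 hX)] at hc
  have hc3 : onePts (rename f (FF hD X0)) φ = Nat.card {x : (TT σ D → κ) × (Rh σ D X0 → κ) //
      ∑ e, x.2 e * eval₂ φ x.1 (hh hD X0 e) = 1} := by
    unfold onePts
    apply Nat.card_congr
    refine Equiv.subtypeEquiv ((Equiv.arrowCongr f.symm (Equiv.refl κ)).trans
      (Equiv.sumArrowEquivProdArrow _ _ κ)) ?_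
    intro u
    rw [eval₂_rename, FF_eval]
    rfl
  rw [← hc3] at hc
  obtain ⟨a, ha⟩ : ∃ a, Nat.card (Rh σ D X0) = a + 1 := ⟨_, (Nat.succ_pred_eq_of_pos hr).symm⟩
  rw [ha] at hc ⊢
  rw [Nat.add_sub_cancel]
  have h6 := congrArg (Nat.cast : ℕ → ℤ) hc
  push_cast at h6
  have hq0 : (Nat.card κ : ℤ) ≠ 0 := by
    have : Nat.card κ ≠ 0 := by omega
    exact_mod_cast this
  apply mul_left_cancel₀ hq0
  linear_combination h6

end Pool.Agent.V8H32.CU
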