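import Pool.Agent.V8H32.CF.Defs
import Pool.Agent.V8H32.CU.Quad

/-!
# The L-functions of projective varieties and of affine hypersurfaces: definitions
-/

set_option autoImplicit false

namespace Pool.Agent.V8H32.CU
open NumberField IsDedekindDomain
open Pool.Agent.TH958.BV (cone)
open Pool.Agent.V8H32.CF (nv)

variable {K : Type} [Field K] [NumberField K]

/-- `α_{k,1}, …, α_{k,N_k}` are the eigenvalues of the geometric Frobenius at the prime `v` on `H^k(X)`,
`0 ≤ k ≤ 2d`, for the projective variety `X` with the homogeneous equations `X`: `|α_{k,j}| = q_v^{k/2}`,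
and the number of the points of `X` over the extension of degree `e` of the residue field is
`∑_k (-1)^k ∑_j α_{k,j}^e` (`cone` is `q_v^e - 1` times this number). By the theorem of Deligne such
numbers exist at almost all primes if `X` is smooth of dimension `d`, with `N_k` the `k`-th Betti number,
and they are unique. -/
def IsFrob {n : ℕ} (X : Set (MvPolynomial (Fin n) (𝓞 K))) (d : ℕ) (N : ℕ → ℕ)
    (v : HeightOneSpectrum (𝓞 K)) (α : ∀ k, Fin (N k) → ℂ) : Prop :=
  (∀ k j, ‖α k j‖ = (nv v : ℝ) ^ ((k : ℝ) / 2)) ∧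
    ∀ (κ : Type) [Field κ] [Finite κ] (φ : 𝓞 K →+* κ) (e : ℕ), RingHom.ker φ = v.asIdeal →
      Nat.card κ = nv v ^ e →
      (cone X φ : ℂ) = ((nv v : ℂ) ^ e - 1) * ∑ k ∈ Finset.range (2 * d + 1), (-1 : ℂ) ^ k *
        ∑ j, α k j ^ e

open Classical in
/-- `L_S(H^i(X), s)`, the product over the primes `v ∉ S` of `∏_j (1 - α_{v,i,j} q_v^{-s})⁻¹` -/
noncomputable def LH (S : Finset (HeightOneSpectrum (𝓞 K))) {N : ℕ → ℕ}
    (α : HeightOneSpectrum (𝓞 K) → ∀ k, Fin (N k) → ℂ) (i : ℕ) (s : ℂ) : ℂ :=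
  ∏' v : HeightOneSpectrum (𝓞 K), if v ∈ S then 1 else
    ∏ j, (1 - α v i j * (nv v : ℂ) ^ (-s))⁻¹

/-- every `z` with `c(z) ≠ 0` has a weight `w ≥ 0`: `|z| = Q^{w/2}` -/
def HasWeights (Q : ℕ) (c : ℂ →₀ ℤ) : Prop := ∀ z ∈ c.support, ∃ w : ℕ, ‖z‖ = (Q : ℝ) ^ ((w : ℝ) / 2)

/-- `c` is the Frobenius divisor at `v` of the affine hypersurface `F = 1`: the number of its points over
the extension of degree `e` of the residue field is `∑_z c(z) z^e`, and every `z` with `c(z) ≠ 0` has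
a weight `w ≥ 0`. By Dwork and Deligne such a function `c` exists, and it is unique. -/
def IsDivisorOne {M : ℕ} (F : MvPolynomial (Fin M) (𝓞 K)) (v : HeightOneSpectrum (𝓞 K))
    (c : ℂ →₀ ℤ) : Prop :=
  HasWeights (nv v) c ∧ ∀ (κ : Type) [Field κ] [Finite κ] (φ : 𝓞 K →+* κ) (e : ℕ),
    RingHom.ker φ = v.asIdeal → Nat.card κ = nv v ^ e →
      (onePts F φ : ℂ) = c.sum (fun z m => (m : ℂ) * z ^ e)

end Pool.Agent.V8H32.CU
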