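import Pool.Agent.V8H32.CU.Defs
import Pool.Agent.V8H25.CF.Prod

/-! The divisor of a projective variety and its L-functions. -/

set_option autoImplicit false
set_option linter.unusedSectionVars false

namespace Pool.Agent.V8H32.CU
open Finset NumberField IsDedekindDomain
open Pool.Agent.TH958.BV (cone)
open Pool.Agent.V8H25.CF
open Pool.Agent.V8H32.CF (nv lf wpart LW Bdd)
open scoped Classical

variable {K : Type} [Field K] [NumberField K]

lemma ps_add (c c' : ℂ →₀ ℤ) (e : ℕ) : (c + c').sum (fun z m => (m : ℂ) * z ^ e) =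
    c.sum (fun z m => (m : ℂ) * z ^ e) + c'.sum (fun z m => (m : ℂ) * z ^ e) := by
  apply Finsupp.sum_add_index
  · intro z _; simp
  · intro z _ m n; push_cast; ring

lemma ps_smul (k : ℤ) (c : ℂ →₀ ℤ) (e : ℕ) : (k • c).sum (fun z m => (m : ℂ) * z ^ e) =
    k * c.sum (fun z m => (m : ℂ) * z ^ e) := by
  rw [Finsupp.sum_of_support_subset (k • c) (s := c.support) Finsupp.support_smul
    (fun z m => (m : ℂ) * z ^ e) (fun z _ => by simp), Finsupp.sum, Finset.mul_sum]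
  apply Finset.sum_congr rfl
  intro z _
  rw [Finsupp.smul_apply]
  push_cast [smul_eq_mul]
  ring

lemma HasWeights.add {Q : ℕ} {c c' : ℂ →₀ ℤ} (h : HasWeights Q c) (h' : HasWeights Q c') :
    HasWeights Q (c + c') := by
  intro z hz
  rcases Finset.mem_union.1 (Finsupp.support_add hz) with h1 | h1
  · exact h z h1
  · exact h' z h1

lemma HasWeights.smul {Q : ℕ} {c : ℂ →₀ ℤ} (h : HasWeights Q c) (k : ℤ) : HasWeights Q (k • c) :=
  fun z hz => h z (Finsupp.support_smul hz)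

lemma HasWeights.sh {Q : ℕ} (hQ : 0 < Q) {c : ℂ →₀ ℤ} (h : HasWeights Q c) (j : ℕ) :
    HasWeights Q (sh Q j c) := by
  intro z hz
  have h1 := Finsupp.mapDomain_support hz
  rw [Finset.mem_image] at h1
  obtain ⟨y, hy, rfl⟩ := h1
  obtain ⟨w, hw⟩ := h y hy
  refine ⟨w + 2 * j, ?_⟩
  have hQR : (0 : ℝ) < Q := by exact_mod_cast hQ
  rw [norm_mul, norm_pow, Complex.norm_natCast, hw, ← Real.rpow_natCast, ← Real.rpow_add hQR]
  congr 1
  push_cast
  ring

lemma HasWeights.zero (Q : ℕ) : HasWeights Q 0 := by intro z hz; simp at hz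

lemma HasWeights.single (Q : ℕ) (m : ℤ) : HasWeights Q (Finsupp.single 1 m) := by
  intro z hz
  have h1 := Finsupp.support_single_subset hz
  rw [Finset.mem_singleton] at h1
  subst h1
  exact ⟨0, by simp⟩

/-- the part of degree `k` of the divisor of `X` -/
noncomputable def cK {N : ℕ → ℕ} (α : ∀ k, Fin (N k) → ℂ) (k : ℕ) : ℂ →₀ ℤ :=
  ∑ j, Finsupp.single (α k j) 1

/-- the divisor of `X` -/
noncomputable def cX (d : ℕ) {N : ℕ → ℕ} (α : ∀ k, Fin (N k) → ℂ) : ℂ →₀ ℤ :=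
  ∑ k ∈ range (2 * d + 1), (-1 : ℤ) ^ k • cK α k

lemma ps_sum {ι : Type} (F : Finset ι) (f : ι → ℂ →₀ ℤ) (e : ℕ) :
    (∑ i ∈ F, f i).sum (fun z m => (m : ℂ) * z ^ e) =
      ∑ i ∈ F, (f i).sum (fun z m => (m : ℂ) * z ^ e) := by
  induction F using Finset.induction_on with
  | empty => simp
  | insert a F ha ih => rw [Finset.sum_insert ha, Finset.sum_insert ha, ps_add, ih]

lemma HasWeights.sum {ι : Type} {Q : ℕ} (F : Finset ι) (f : ι → ℂ →₀ ℤ)
    (h : ∀ i ∈ F, HasWeights Q (f i)) : HasWeights Q (∑ i ∈ F, f i) :=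
  Finset.sum_induction _ (fun c => HasWeights Q c) (fun _ _ h h' => h.add h') (HasWeights.zero Q) h

lemma cK_weight {N : ℕ → ℕ} {Q : ℕ} {α : ∀ k, Fin (N k) → ℂ}
    (hα : ∀ k j, ‖α k j‖ = (Q : ℝ) ^ ((k : ℝ) / 2)) (k : ℕ) :
    ∀ z ∈ (cK α k).support, ‖z‖ = (Q : ℝ) ^ ((k : ℝ) / 2) := by
  intro z hz
  unfold cK at hz
  have h1 := Finsupp.support_finsetSum hz
  rw [Finset.mem_biUnion] at h1
  obtain ⟨j, -, hj⟩ := h1
  have h2 := Finsupp.support_single_subset hj
  rw [Finset.mem_singleton] at h2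
  rw [h2, hα]

lemma IsFrob.divisor {n : ℕ} {X : Set (MvPolynomial (Fin n) (𝓞 K))} {d : ℕ} {N : ℕ → ℕ}
    {v : HeightOneSpectrum (𝓞 K)} {α : ∀ k, Fin (N k) → ℂ} (h : IsFrob X d N v α) :
    HasWeights (nv v) (cX d α) ∧ ∀ (κ : Type) [Field κ] [Finite κ] (φ : 𝓞 K →+* κ) (e : ℕ),
      RingHom.ker φ = v.asIdeal → Nat.card κ = nv v ^ e →
      (cone X φ : ℂ) = ((nv v : ℂ) ^ e - 1) * (cX d α).sum (fun z m => (m : ℂ) * z ^ e) := by
  refine ⟨?_, ?_⟩
  · apply HasWeights.sum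
    intro k _
    apply HasWeights.smul
    intro z hz
    exact ⟨k, cK_weight h.1 k z hz⟩
  · intro κ _ _ φ e hφ hcard
    rw [h.2 κ φ e hφ hcard]
    congr 1
    unfold cX
    rw [ps_sum]
    apply Finset.sum_congr rfl
    intro k _
    rw [ps_smul]
    unfold cK
    rw [ps_sum]
    push_cast
    congr 1
    apply Finset.sum_congr rfl
    intro j _
    rw [Finsupp.sum_single_index] <;> simp

lemma sum_nat_le {ι : Type} (F : Finset ι) (f : ι → ℂ →₀ ℤ) :
    ((∑ i ∈ F, f i).sum fun _ m => m.natAbs) ≤ ∑ i ∈ F, ((f i).sum fun _ m => m.natAbs) := by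
  induction F using Finset.induction_on with
  | empty => simp
  | insert a F ha ih =>
    rw [Finset.sum_insert ha, Finset.sum_insert ha]
    exact (sum_add_le _ _).trans (Nat.add_le_add_left ih _)

lemma cK_bdd {N : ℕ → ℕ} (α : ∀ k, Fin (N k) → ℂ) (k : ℕ) :
    ((cK α k).sum fun _ m => m.natAbs) ≤ N k := by
  unfold cK
  refine (sum_nat_le _ _).trans ?_
  have : ∀ j ∈ (univ : Finset (Fin (N k))), ((Finsupp.single (α k j) (1 : ℤ)).sum fun _ m => m.natAbs) ≤ 1 := by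
    intro j _
    rw [Finsupp.sum_single_index] <;> simp
  refine (Finset.sum_le_card_nsmul _ _ _ this).trans ?_
  simp

lemma cX_bdd (S : Finset (HeightOneSpectrum (𝓞 K))) (d : ℕ) {N : ℕ → ℕ}
    (α : HeightOneSpectrum (𝓞 K) → ∀ k, Fin (N k) → ℂ) : Bdd S (fun v => cX d (α v)) := by
  refine ⟨∑ k ∈ range (2 * d + 1), N k, fun v _ => ?_⟩
  unfold cX
  refine (sum_nat_le _ _).trans ?_
  apply Finset.sum_le_sum
  intro k _
  refine (sum_zsmul_le _ _).trans ?_
  rw [Int.natAbs_pow, Int.natAbs_neg, Int.natAbs_one, one_pow, one_mul]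
  exact cK_bdd _ _

lemma wpart_cK {N : ℕ → ℕ} {v : HeightOneSpectrum (𝓞 K)} {α : ∀ k, Fin (N k) → ℂ}
    (hα : ∀ k j, ‖α k j‖ = (nv v : ℝ) ^ ((k : ℝ) / 2)) (k i : ℕ) :
    wpart (nv v) i (cK α k) = if k = i then cK α k else 0 := by
  have hq : (1 : ℝ) < nv v := by
    have := two_le_nv v
    have h2 : (2 : ℝ) ≤ nv v := by exact_mod_cast this
    linarith
  unfold wpart
  split_ifs with h
  · subst h
    rw [Finsupp.filter_eq_self_iff]
    intro z hz
    exact cK_weight hα k z (Finsupp.mem_support_iff.2 hz)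
  · rw [Finsupp.filter_eq_zero_iff]
    intro z hz
    by_contra h0
    have h1 := cK_weight hα k z (Finsupp.mem_support_iff.2 h0)
    rw [h1] at hz
    have h3 := (Real.rpow_right_inj (by linarith) (by linarith)).1 hz
    have h4 : (k : ℝ) = i := by linarith
    exact h (by exact_mod_cast h4)

lemma wpart_sum {ι : Type} (Q : ℝ) (w : ℕ) (F : Finset ι) (f : ι → ℂ →₀ ℤ) :
    wpart Q w (∑ i ∈ F, f i) = ∑ i ∈ F, wpart Q w (f i) := by
  induction F using Finset.induction_on with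
  | empty => simp [wpart_zero]
  | insert a F ha ih => rw [Finset.sum_insert ha, Finset.sum_insert ha, wpart_add, ih]

lemma wpart_cX {N : ℕ → ℕ} {v : HeightOneSpectrum (𝓞 K)} {α : ∀ k, Fin (N k) → ℂ}
    (hα : ∀ k j, ‖α k j‖ = (nv v : ℝ) ^ ((k : ℝ) / 2)) (d i : ℕ) :
    wpart (nv v) i (cX d α) = if i ≤ 2 * d then (-1 : ℤ) ^ i • cK α i else 0 := by
  unfold cX
  rw [wpart_sum]
  have h1 : ∀ k ∈ range (2 * d + 1), wpart (nv v) i ((-1 : ℤ) ^ k • cK α k) =
      if i = k then (-1 : ℤ) ^ k • cK α k else 0 := by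
    intro k _
    rw [wpart_zsmul, wpart_cK hα]
    by_cases h : k = i
    · rw [if_pos h, if_pos h.symm]
    · rw [if_neg h, if_neg (Ne.symm h), smul_zero]
  rw [Finset.sum_congr rfl h1, Finset.sum_ite_eq]
  by_cases h : i ≤ 2 * d
  · rw [if_pos (mem_range.2 (by omega)), if_pos h]
  · rw [if_neg (fun h' => h (by have := mem_range.1 h'; omega)), if_neg h]

lemma lf_cK {N : ℕ → ℕ} (α : ∀ k, Fin (N k) → ℂ) (i : ℕ) {x : ℂ} (hx : ∀ j, 1 - α i j * x ≠ 0) :
    lf (cK α i) x = ∏ j, (1 - α i j * x)⁻¹ := by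
  unfold cK
  have key : ∀ F : Finset (Fin (N i)), lf (∑ j ∈ F, Finsupp.single (α i j) 1) x =
      ∏ j ∈ F, (1 - α i j * x)⁻¹ := by
    intro F
    induction F using Finset.induction_on with
    | empty => simp [lf_zero]
    | insert a F ha ih =>
      rw [Finset.sum_insert ha, Finset.prod_insert ha, lf_add, ih, lf_single, zpow_neg_one]
      · intro z hz
        have h2 := Finsupp.support_single_subset hz
        rw [Finset.mem_singleton] at h2
        rw [h2]; exact hx a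
      · intro z hz
        have h1 := Finsupp.support_finsetSum hz
        rw [Finset.mem_biUnion] at h1
        obtain ⟨j, -, hj⟩ := h1
        have h2 := Finsupp.support_single_subset hj
        rw [Finset.mem_singleton] at h2
        rw [h2]; exact hx j
  exact key univ

lemma LH_factor {N : ℕ → ℕ} {v : HeightOneSpectrum (𝓞 K)} {α : ∀ k, Fin (N k) → ℂ}
    (hα : ∀ k j, ‖α k j‖ = (nv v : ℝ) ^ ((k : ℝ) / 2)) (i : ℕ) {s : ℂ}
    (hs : (i : ℝ) / 2 + 1 < s.re) (j : Fin (N i)) : 1 - α i j * (nv v : ℂ) ^ (-s) ≠ 0 := by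
  have hq : (1 : ℝ) < nv v := by
    have := two_le_nv v
    have h2 : (2 : ℝ) ≤ nv v := by exact_mod_cast this
    linarith
  intro h
  have h1 : α i j * (nv v : ℂ) ^ (-s) = 1 := (sub_eq_zero.1 h).symm
  have h2 : ‖α i j * (nv v : ℂ) ^ (-s)‖ = 1 := by rw [h1, norm_one]
  rw [norm_mul, hα, Complex.norm_natCast_cpow_of_pos (nv_pos v), ← Real.rpow_add (by linarith)] at h2
  have h3 : (i : ℝ) / 2 + (-s).re < 0 := by rw [Complex.neg_re]; linarith
  have h4 := Real.rpow_lt_one_of_one_lt_of_neg hq h3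
  linarith

/-- the L-function of `H^i` as a weight part -/
lemma LW_cX {S : Finset (HeightOneSpectrum (𝓞 K))} {N : ℕ → ℕ}
    {α : HeightOneSpectrum (𝓞 K) → ∀ k, Fin (N k) → ℂ}
    (hα : ∀ v, v ∉ S → ∀ k j, ‖α v k j‖ = (nv v : ℝ) ^ ((k : ℝ) / 2)) {d i : ℕ} (hi : i ≤ 2 * d)
    {s : ℂ} (hs : (i : ℝ) / 2 + 1 < s.re) :
    LW S (fun v => cX d (α v)) i s = LH S α i s ^ ((-1 : ℤ) ^ i) := by
  have hB : Bdd S (fun v => cK (α v) i) := ⟨N i, fun v _ => cK_bdd _ _⟩
  have h1 : LW S (fun v => cX d (α v)) i s = LW S (fun v => (-1 : ℤ) ^ i • cK (α v) i) i s := by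
    unfold LW
    apply tprod_congr
    intro v
    split_ifs with hv
    · rfl
    · rw [wpart_cX (hα v hv), if_pos hi, wpart_zsmul, wpart_cK (hα v hv), if_pos rfl]
  rw [h1, LW_zsmul _ hB hs]
  congr 1
  unfold LW LH
  apply tprod_congr
  intro v
  split_ifs with hv
  · rfl
  · rw [wpart_cK (hα v hv), if_pos rfl, lf_cK]
    intro j
    exact LH_factor (hα v hv) i hs j

lemma LW_cX_large {S : Finset (HeightOneSpectrum (𝓞 K))} {N : ℕ → ℕ}
    {α : HeightOneSpectrum (𝓞 K) → ∀ k, Fin (N k) → ℂ}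
    (hα : ∀ v, v ∉ S → ∀ k j, ‖α v k j‖ = (nv v : ℝ) ^ ((k : ℝ) / 2)) {d i : ℕ} (hi : 2 * d < i) (s : ℂ) :
    LW S (fun v => cX d (α v)) i s = 1 := by
  unfold LW
  refine (tprod_congr fun v => ?_).trans tprod_one
  split_ifs with hv
  · rfl
  · rw [wpart_cX (hα v hv), if_neg (by omega), lf_zero]


end Pool.Agent.V8H32.CU
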