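import Pool.Agent.V8H32.CU.Norm
import Pool.Agent.V8H32.CU.Lh

/-! The L-functions of a projective variety are weight parts of the zeta function of a smooth affine
cubic hypersurface. -/

set_option autoImplicit false

namespace Pool.Agent.V8H32.CU
open Finset NumberField IsDedekindDomain
open Pool.Agent.TH958.BV (cone)
open Pool.Agent.V8H25.CF
open Pool.Agent.V8H32.CF (nv lf wpart LW Bdd)
open scoped Classical

variable {K : Type} [Field K] [NumberField K]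

/-- the Frobenius divisor of the cubic hypersurface -/
noncomputable def cU (Q : ℂ) (a T : ℕ) (c : ℂ →₀ ℤ) : ℂ →₀ ℤ :=
  (-1 : ℤ) • sh Q a c + sh Q (a + T) (Finsupp.single 1 1)

lemma cU_weights {Q : ℕ} (hQ : 0 < Q) {c : ℂ →₀ ℤ} (h : HasWeights Q c) (a T : ℕ) :
    HasWeights Q (cU Q a T c) :=
  ((h.sh hQ _).smul _).add ((HasWeights.single Q _).sh hQ _)

lemma ps_cU {Q : ℂ} (hQ : Q ≠ 0) (a T : ℕ) (c : ℂ →₀ ℤ) (e : ℕ) :
    (cU Q a T c).sum (fun z m => (m : ℂ) * z ^ e) =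
      (Q ^ e) ^ (a + T) - (Q ^ e) ^ a * c.sum (fun z m => (m : ℂ) * z ^ e) := by
  unfold cU
  rw [ps_add, ps_smul, sh_powerSum hQ, sh_powerSum hQ, Finsupp.sum_single_index (by simp)]
  push_cast
  simp only [one_pow, mul_one]
  ring

lemma cU_bdd {S : Finset (HeightOneSpectrum (𝓞 K))} {c : HeightOneSpectrum (𝓞 K) → ℂ →₀ ℤ}
    (hB : Bdd S c) (a T : ℕ) : Bdd S (fun v => cU (nv v) a T (c v)) :=
  bdd_add (bdd_zsmul (bdd_sh hB _) _) (bdd_sh (bdd_const S _) _)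

/-- the divisor of the hypersurface `F = 1` -/
theorem divisor_of_count {n M a T : ℕ} {X : Set (MvPolynomial (Fin n) (𝓞 K))}
    {F : MvPolynomial (Fin M) (𝓞 K)}
    (hF : ∀ (κ : Type) [Field κ] [Finite κ] (φ : 𝓞 K →+* κ),
        ((Nat.card κ : ℤ) - 1) * onePts F φ = (Nat.card κ : ℤ) ^ a *
          (((Nat.card κ : ℤ) - 1) * (Nat.card κ : ℤ) ^ T - cone X φ))
    {v : HeightOneSpectrum (𝓞 K)} {c : ℂ →₀ ℤ} (hw : HasWeights (nv v) c)
    (hc : ∀ (κ : Type) [Field κ] [Finite κ] (φ : 𝓞 K →+* κ) (e : ℕ),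
      RingHom.ker φ = v.asIdeal → Nat.card κ = nv v ^ e →
      (cone X φ : ℂ) = ((nv v : ℂ) ^ e - 1) * c.sum (fun z m => (m : ℂ) * z ^ e)) :
    IsDivisorOne F v (cU (nv v) a T c) := by
  refine ⟨cU_weights (nv_pos v) hw a T, ?_⟩
  intro κ _ _ φ e hφ hcard
  have h1 := congrArg (Int.cast : ℤ → ℂ) (hF κ φ)
  have h2 := hc κ φ e hφ hcard
  have hq : 1 < Nat.card κ := Finite.one_lt_card
  have hq' : ((nv v : ℂ) ^ e - 1) ≠ 0 := by
    rw [sub_ne_zero]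
    have h3 : nv v ^ e ≠ 1 := by rw [← hcard]; omega
    exact_mod_cast h3
  rw [hcard] at h1
  push_cast at h1
  rw [ps_cU (nv_ne_zero v)]
  apply mul_left_cancel₀ hq'
  rw [h1, h2]
  ring

/-- **the identity** -/
theorem identity {S : Finset (HeightOneSpectrum (𝓞 K))} {N : ℕ → ℕ}
    {α : HeightOneSpectrum (𝓞 K) → ∀ k, Fin (N k) → ℂ}
    (hα : ∀ v, v ∉ S → ∀ k j, ‖α v k j‖ = (nv v : ℝ) ^ ((k : ℝ) / 2)) (a : ℕ) {T d i : ℕ} (hT : d < T)
    (hi : i ≤ 2 * d) {s : ℂ} (hs : (i : ℝ) / 2 + 1 < s.re) :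
    LH S α i s = LW S (fun v => cU (nv v) a T (cX d (α v))) (i + 2 * a) (s + a) ^ (-(-1 : ℤ) ^ i) := by
  have hB := cX_bdd S d α
  have hre : (((i + 2 * a : ℕ) : ℝ)) / 2 + 1 < (s + (a : ℂ)).re := by
    rw [Complex.add_re, Complex.natCast_re]
    push_cast
    linarith
  have h1 : LW S (fun v => cU (nv v) a T (cX d (α v))) (i + 2 * a) (s + a) =
      (LH S α i s ^ ((-1 : ℤ) ^ i))⁻¹ := by
    unfold cU
    rw [LW_add (bdd_zsmul (bdd_sh hB _) _) (bdd_sh (bdd_const S _) _) hre, LW_zsmul _ (bdd_sh hB _) hre,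
      LW_sh, LW_cX hα hi hs, zpow_neg_one,
      LW_sh_small (by omega) (fun v _ => HasWeights.single (nv v) _), mul_one]
  rw [h1, ← zpow_neg_one, ← zpow_mul, ← zpow_mul]
  have h2 : (-1 : ℤ) ^ i * (-1 * -(-1) ^ i) = 1 := by
    have h3 : (-1 : ℤ) ^ i * (-1) ^ i = 1 := by
      rw [← mul_pow]; norm_num
    linarith
  rw [h2, zpow_one]

theorem LH_mero {L : ℂ → ℂ} {a : ℕ} {w : ℕ} (h : Mero L (((w + 2 * a : ℕ) : ℝ) / 2 + 1)) (e : ℤ) :
    Mero (fun s => L (s + a) ^ e) ((w : ℝ) / 2 + 1) := by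
  have h1 := (h.comp_add (a : ℂ)).zpow e
  refine h1.mono ?_
  rw [Complex.natCast_re]
  push_cast
  linarith

end Pool.Agent.V8H32.CU
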