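import Pool.Agent.V8H32.CU.Quad
import Pool.Agent.TH958.BV.Defs

/-! The points of a projective variety as the solutions of a system of affine equations: normalized
homogeneous coordinates. -/

set_option autoImplicit false

namespace Pool.Agent.V8H32.CU
open Finset MvPolynomial
open Pool.Agent.TH958.BV (cone)
open scoped Classical

variable {n : ℕ} {R : Type} [CommRing R]

/-- `x` (coordinates) and `e` (the position of the first nonzero coordinate) -/
abbrev Sg (n : ℕ) : Type := Fin n ⊕ Fin n

/-- the equations -/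
noncomputable def sysN (X1 : Finset (MvPolynomial (Fin n) R)) : Finset (MvPolynomial (Sg n) R) :=
  ((univ.image (fun p : Fin n × Fin n => if p.1 ≠ p.2 then X (Sum.inr p.1) * X (Sum.inr p.2) else 0)) ∪
    (univ.image (fun p : Fin n × Fin n => if p.1 < p.2 then X (Sum.inl p.1) * X (Sum.inr p.2) else 0))) ∪
  ((univ.image (fun j : Fin n => (X (Sum.inl j) - 1) * X (Sum.inr j))) ∪
    ({∑ j : Fin n, X (Sum.inr j) - 1} ∪ X1.image (rename Sum.inl)))

variable {κ : Type} [Field κ] (φ : R →+* κ)

lemma sys_iff (X1 : Finset (MvPolynomial (Fin n) R)) (z : Sg n → κ) :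
    (∀ f ∈ sysN X1, eval₂ φ z f = 0) ↔ ∃ j : Fin n, (∀ i, z (Sum.inr i) = if i = j then 1 else 0) ∧
      z (Sum.inl j) = 1 ∧ (∀ i < j, z (Sum.inl i) = 0) ∧ ∀ f ∈ X1, eval₂ φ (z ∘ Sum.inl) f = 0 := by
  constructor
  · intro h
    have h1 : ∀ i j : Fin n, i ≠ j → z (Sum.inr i) * z (Sum.inr j) = 0 := by
      intro i j hij
      have := h (if i ≠ j then X (Sum.inr i) * X (Sum.inr j) else 0) (by
        unfold sysN
        exact mem_union_left _ (mem_union_left _ (mem_image_of_mem
          (fun p : Fin n × Fin n => if p.1 ≠ p.2 then (X (Sum.inr p.1) * X (Sum.inr p.2) :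
            MvPolynomial (Sg n) R) else 0) (mem_univ (i, j)))))
      rw [if_pos hij, eval₂_mul, eval₂_X, eval₂_X] at this
      exact this
    have h2 : ∀ i j : Fin n, i < j → z (Sum.inl i) * z (Sum.inr j) = 0 := by
      intro i j hij
      have := h (if i < j then X (Sum.inl i) * X (Sum.inr j) else 0) (by
        unfold sysN
        exact mem_union_left _ (mem_union_right _ (mem_image_of_mem
          (fun p : Fin n × Fin n => if p.1 < p.2 then (X (Sum.inl p.1) * X (Sum.inr p.2) :
            MvPolynomial (Sg n) R) else 0) (mem_univ (i, j)))))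
      rw [if_pos hij, eval₂_mul, eval₂_X, eval₂_X] at this
      exact this
    have h3 : ∀ j : Fin n, (z (Sum.inl j) - 1) * z (Sum.inr j) = 0 := by
      intro j
      have := h ((X (Sum.inl j) - 1) * X (Sum.inr j)) (by
        unfold sysN
        exact mem_union_right _ (mem_union_left _ (mem_image_of_mem
          (fun j : Fin n => ((X (Sum.inl j) - 1) * X (Sum.inr j) : MvPolynomial (Sg n) R)) (mem_univ j))))
      rw [eval₂_mul, eval₂_X, eval₂_sub, eval₂_X, eval₂_one] at this
      exact this
    have h4 : ∑ j : Fin n, z (Sum.inr j) = 1 := by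
      have := h (∑ j : Fin n, X (Sum.inr j) - 1) (by
        unfold sysN
        exact mem_union_right _ (mem_union_right _ (mem_union_left _ (mem_singleton_self _))))
      rw [eval₂_sub, eval₂_sum, eval₂_one, sub_eq_zero] at this
      rw [← this]
      exact Finset.sum_congr rfl (fun j _ => (eval₂_X _ _ _).symm)
    have h5 : ∀ f ∈ X1, eval₂ φ (z ∘ Sum.inl) f = 0 := by
      intro f hf
      have := h (rename Sum.inl f) (by
        unfold sysN
        exact mem_union_right _ (mem_union_right _ (mem_union_right _ (mem_image_of_mem _ hf))))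
      rw [eval₂_rename] at this
      exact this
    obtain ⟨j, hj⟩ : ∃ j : Fin n, z (Sum.inr j) ≠ 0 := by
      by_contra hcon
      push Not at hcon
      rw [Finset.sum_eq_zero (fun j _ => hcon j)] at h4
      exact zero_ne_one h4
    have h6 : ∀ i, i ≠ j → z (Sum.inr i) = 0 := fun i hi =>
      (mul_eq_zero.1 (h1 i j hi)).resolve_right hj
    have h7 : z (Sum.inr j) = 1 := by
      rw [Finset.sum_eq_single j (fun i _ hi => h6 i hi) (fun h => absurd (mem_univ _) h)] at h4
      exact h4
    refine ⟨j, fun i => ?_, ?_, fun i hi => ?_, h5⟩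
    · split_ifs with hij
      · rw [hij, h7]
      · exact h6 i hij
    · have := h3 j
      rw [h7, mul_one, sub_eq_zero] at this
      exact this
    · have := h2 i j hi
      rw [h7, mul_one] at this
      exact this
  · rintro ⟨j, h1, h2, h3, h4⟩ f hf
    unfold sysN at hf
    rw [mem_union, mem_union, mem_union, mem_union, mem_image, mem_image, mem_image, mem_singleton,
      mem_image] at hf
    rcases hf with (⟨p, -, rfl⟩ | ⟨p, -, rfl⟩) | (⟨i, -, rfl⟩ | (rfl | ⟨g, hg, rfl⟩))
    · split_ifs with hp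
      · rw [eval₂_mul, eval₂_X, eval₂_X, h1, h1]
        split_ifs with ha hb
        · exact absurd (ha.trans hb.symm) hp
        · rw [mul_zero]
        · rw [zero_mul]
        · rw [zero_mul]
      · exact eval₂_zero _ _
    · split_ifs with hp
      · rw [eval₂_mul, eval₂_X, eval₂_X, h1]
        split_ifs with ha
        · rw [h3 _ (ha ▸ hp), zero_mul]
        · rw [mul_zero]
      · exact eval₂_zero _ _
    · rw [eval₂_mul, eval₂_X, eval₂_sub, eval₂_X, eval₂_one, h1]
      split_ifs with ha
      · rw [ha, h2, sub_self, zero_mul]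
      · rw [mul_zero]
    · rw [eval₂_sub, eval₂_sum, eval₂_one]
      have : ∀ i ∈ (univ : Finset (Fin n)), eval₂ φ z (X (Sum.inr i)) = if i = j then 1 else 0 := by
        intro i _
        rw [eval₂_X, h1]
      rw [Finset.sum_congr rfl this, Finset.sum_ite_eq', if_pos (mem_univ _), sub_self]
    · rw [eval₂_rename]
      exact h4 g hg

lemma eval_smul {f : MvPolynomial (Fin n) R} {d : ℕ} (hf : f.IsHomogeneous d) (c : κ) (x : Fin n → κ) :
    eval₂ φ (fun i => c * x i) f = c ^ d * eval₂ φ x f := by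
  rw [eval₂_eq', eval₂_eq', Finset.mul_sum]
  apply Finset.sum_congr rfl
  intro a ha
  have h1 : ∏ i, (c * x i) ^ a i = c ^ d * ∏ i, x i ^ a i := by
    have h2 : ∑ i, a i = d := by
      have h3 := hf (mem_support_iff.1 ha)
      rw [← h3]
      rw [Finsupp.weight_apply, Finsupp.sum_fintype]
      · simp
      · simp
    rw [← h2, ← Finset.prod_pow_eq_pow_sum, ← Finset.prod_mul_distrib]
    exact Finset.prod_congr rfl (fun i _ => mul_pow _ _ _)
  rw [h1]
  ring

theorem norm_count [Finite κ] (X1 : Finset (MvPolynomial (Fin n) R))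
    (hom : ∀ f ∈ X1, ∃ d, f.IsHomogeneous d) :
    cone (X1 : Set (MvPolynomial (Fin n) R)) φ =
      (Nat.card κ - 1) * Nat.card {z : Sg n → κ // ∀ f ∈ sysN X1, eval₂ φ z f = 0} := by
  have e1 : Nat.card κˣ = Nat.card κ - 1 := by
    haveI := Fintype.ofFinite κ
    rw [Nat.card_eq_fintype_card, Nat.card_eq_fintype_card, Fintype.card_units]
  rw [← e1, ← Nat.card_prod]
  symm
  unfold cone
  set Φ : κˣ × {z : Sg n → κ // ∀ f ∈ sysN X1, eval₂ φ z f = 0} →
      {u : Fin n → κ // u ≠ 0 ∧ ∀ f ∈ (X1 : Set (MvPolynomial (Fin n) R)), eval₂ φ u f = 0} :=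
    fun p => ⟨fun i => (p.1 : κ) * p.2.1 (Sum.inl i), by
      obtain ⟨j, h1, h2, h3, h4⟩ := (sys_iff φ X1 p.2.1).1 p.2.2
      refine ⟨fun h => ?_, fun f hf => ?_⟩
      · have := congrFun h j
        simp only [h2, mul_one, Pi.zero_apply] at this
        exact p.1.ne_zero this
      · obtain ⟨d, hd⟩ := hom f hf
        have := eval_smul φ hd (p.1 : κ) (p.2.1 ∘ Sum.inl)
        simp only [Function.comp_apply] at this
        rw [this]
        have h5 := h4 f hf
        rw [h5, mul_zero]⟩ with hΦ
  apply Nat.card_congr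
  apply Equiv.ofBijective Φ
  constructor
  · rintro ⟨c, z⟩ ⟨c', z'⟩ h
    have h0 : ∀ i, (c : κ) * z.1 (Sum.inl i) = (c' : κ) * z'.1 (Sum.inl i) := by
      intro i
      exact congrFun (congrArg Subtype.val h) i
    obtain ⟨j, h1, h2, h3, h4⟩ := (sys_iff φ X1 z.1).1 z.2
    obtain ⟨j', h1', h2', h3', h4'⟩ := (sys_iff φ X1 z'.1).1 z'.2
    have hjj : j = j' := by
      rcases lt_trichotomy j j' with hlt | heq | hgt
      · have := h0 j
        rw [h2, h3' j hlt, mul_zero, mul_one] at this
        exact absurd this c.ne_zero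
      · exact heq
      · have := h0 j'
        rw [h2', h3 j' hgt, mul_zero, mul_one] at this
        exact absurd this.symm c'.ne_zero
    subst hjj
    have hcc : (c : κ) = c' := by
      have := h0 j
      rw [h2, h2', mul_one, mul_one] at this
      exact this
    have hc : c = c' := Units.ext hcc
    subst hc
    have hz : z = z' := by
      apply Subtype.ext
      funext i
      rcases i with i | i
      · exact mul_left_cancel₀ c.ne_zero (h0 i)
      · rw [h1, h1']
    rw [hz]
  · rintro ⟨u, hu0, hu⟩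
    obtain ⟨k, hk⟩ : ∃ k, u k ≠ 0 := by
      by_contra hcon
      push Not at hcon
      exact hu0 (funext hcon)
    set F := univ.filter (fun i => u i ≠ 0) with hF
    have hFne : F.Nonempty := ⟨k, by rw [hF, mem_filter]; exact ⟨mem_univ _, hk⟩⟩
    set j := F.min' hFne with hj
    have hj0 : u j ≠ 0 := by
      have := F.min'_mem hFne
      rw [← hj] at this
      exact (mem_filter.1 this).2
    have hjlt : ∀ i < j, u i = 0 := by
      intro i hi
      by_contra h
      have h1 : i ∈ F := by rw [hF, mem_filter]; exact ⟨mem_univ _, h⟩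
      have h2 := F.min'_le i h1
      rw [← hj] at h2
      exact absurd hi (not_lt.2 h2)
    set z : Sg n → κ := Sum.elim (fun i => (u j)⁻¹ * u i) (fun i => if i = j then 1 else 0) with hz
    have hzs : ∀ f ∈ sysN X1, eval₂ φ z f = 0 := by
      rw [sys_iff]
      refine ⟨j, fun i => rfl, ?_, fun i hi => ?_, fun f hf => ?_⟩
      · change (u j)⁻¹ * u j = 1
        exact inv_mul_cancel₀ hj0
      · change (u j)⁻¹ * u i = 0
        rw [hjlt i hi, mul_zero]
      · obtain ⟨d, hd⟩ := hom f hf
        have := eval_smul φ hd (u j)⁻¹ u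
        change eval₂ φ (fun i => (u j)⁻¹ * u i) f = 0
        rw [this, hu f hf, mul_zero]
    refine ⟨(Units.mk0 (u j) hj0, ⟨z, hzs⟩), ?_⟩
    apply Subtype.ext
    funext i
    change u j * ((u j)⁻¹ * u i) = u i
    rw [mul_inv_cancel_left₀ hj0]

lemma cone_congr {A B : Set (MvPolynomial (Fin n) R)}
    (h : Ideal.span A = Ideal.span B) : cone A φ = cone B φ := by
  have key : ∀ {A B : Set (MvPolynomial (Fin n) R)}, Ideal.span A = Ideal.span B →
      ∀ u : Fin n → κ, (∀ f ∈ A, eval₂ φ u f = 0) → ∀ f ∈ B, eval₂ φ u f = 0 := by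
    intro A B h u hA f hf
    have h1 : Ideal.span A ≤ RingHom.ker (eval₂Hom φ u) := by
      rw [Ideal.span_le]
      intro g hg
      exact hA g hg
    have h2 : f ∈ Ideal.span B := Ideal.subset_span hf
    rw [← h] at h2
    exact h1 h2
  unfold cone
  apply Nat.card_congr
  apply Equiv.subtypeEquivRight
  intro u
  exact and_congr_right (fun _ => ⟨key h u, key h.symm u⟩)

/-- **the smooth affine cubic hypersurface of a projective variety** -/
theorem smooth_cubic [IsNoetherianRing R] (hn : 0 < n) (X : Set (MvPolynomial (Fin n) R))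
    (hom : ∀ f ∈ X, ∃ d, f.IsHomogeneous d) (d : ℕ) :
    ∃ (M a T : ℕ) (F : MvPolynomial (Fin M) R), d < T ∧ F.totalDegree ≤ 3 ∧ SmoothOne F ∧
      ∀ (κ : Type) [Field κ] [Finite κ] (φ : R →+* κ),
        ((Nat.card κ : ℤ) - 1) * onePts F φ = (Nat.card κ : ℤ) ^ a *
          (((Nat.card κ : ℤ) - 1) * (Nat.card κ : ℤ) ^ T - cone X φ) := by
  obtain ⟨X1, hX1, hspan⟩ : ∃ X1 : Finset (MvPolynomial (Fin n) R), (X1 : Set _) ⊆ X ∧
      Ideal.span (X1 : Set (MvPolynomial (Fin n) R)) = Ideal.span X := by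
    have h1 : (Submodule.span (MvPolynomial (Fin n) R) X).FG := IsNoetherian.noetherian _
    obtain ⟨s, hs1, hs2⟩ := (Submodule.fg_span_iff_fg_span_finset_subset X).1 h1
    exact ⟨s, hs1, hs2.symm⟩
  set X0 := sysN X1 with hX0
  set D : ℕ := d + 1 + ∑ f ∈ X0, ∑ i, degreeOf i f with hDdef
  have hD : 1 ≤ D := by omega
  have hX : ∀ f ∈ X0, ∀ a ∈ f.support, ∀ i, a i ≤ D := by
    intro f hf a ha i
    have h1 := monomial_le_degreeOf i ha
    have h2 : degreeOf i f ≤ ∑ i, degreeOf i f :=
      Finset.single_le_sum (f := fun i => degreeOf i f) (fun _ _ => Nat.zero_le _) (mem_univ i)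
    have h3 : ∑ i, degreeOf i f ≤ ∑ f ∈ X0, ∑ i, degreeOf i f :=
      Finset.single_le_sum (f := fun f => ∑ i, degreeOf i f) (fun _ _ => Nat.zero_le _) hf
    omega
  set e := Fintype.equivFin (TT (Sg n) D ⊕ Rh (Sg n) D X0) with he
  refine ⟨_, Nat.card (Rh (Sg n) D X0) - 1, Nat.card (TT (Sg n) D), rename e (FF hD X0), ?_,
    (totalDegree_rename_le _ _).trans (FF_deg hD X0), FF_smooth hD X0 e, ?_⟩
  · -- the monomials `x_0^k`, `k ≤ D`
    have h1 : Nat.card (Fin (D + 1)) ≤ Nat.card (TT (Sg n) D) := by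
      apply Nat.card_le_card_of_injective (fun k : Fin (D + 1) =>
        (⟨Finsupp.single (Sum.inl ⟨0, hn⟩) k, mem_TT.2 (fun j => by
          by_cases h : (Sum.inl ⟨0, hn⟩ : Sg n) = j
          · subst h; simp; omega
          · rw [Finsupp.single_eq_of_ne (Ne.symm h)]; omega)⟩ : TT (Sg n) D))
      intro k k' hkk
      have h2 := congrArg Subtype.val hkk
      have h3 := DFunLike.congr_fun h2 (Sum.inl ⟨0, hn⟩)
      simp only [Finsupp.single_eq_same] at h3
      exact Fin.ext h3
    rw [Nat.card_eq_fintype_card, Fintype.card_fin] at h1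
    omega
  intro κ _ _ φ
  have hc := FF_count φ hD X0 hX e
  have hq : 1 < Nat.card κ := Finite.one_lt_card
  have h2 := norm_count φ X1 (fun f hf => hom f (hX1 hf))
  rw [cone_congr φ hspan] at h2
  have h3 := congrArg (Nat.cast : ℕ → ℤ) h2
  have hq1 : ((Nat.card κ - 1 : ℕ) : ℤ) = (Nat.card κ : ℤ) - 1 := by
    push_cast [Nat.cast_sub hq.le]; ring
  push_cast [hq1] at h3
  rw [hc, h3]
  ring

end Pool.Agent.V8H32.CU
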