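import Pool.Agent.V8H32.CU.Main

set_option autoImplicit false

namespace Pool.Agent.V8H32.CU
open Finset NumberField IsDedekindDomain
open Pool.Agent.TH958.BV (cone)
open Pool.Agent.V8H25.CF
open Pool.Agent.V8H32.CF (nv lf wpart LW Bdd)
open scoped Classical

variable {K : Type} [Field K] [NumberField K]

/-- the existence and the identity -/
theorem exists_cubic (n d : ℕ) (X : Set (MvPolynomial (Fin (n + 1)) (𝓞 K)))
    (hom : ∀ f ∈ X, ∃ k, f.IsHomogeneous k) : ∃ (M a : ℕ) (F : MvPolynomial (Fin M) (𝓞 K)),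
      F.totalDegree ≤ 3 ∧ SmoothOne F ∧
      ∀ (S : Finset (HeightOneSpectrum (𝓞 K))) (N : ℕ → ℕ)
        (α : HeightOneSpectrum (𝓞 K) → ∀ k, Fin (N k) → ℂ), (∀ v, v ∉ S → IsFrob X d N v (α v)) →
        ∃ c : HeightOneSpectrum (𝓞 K) → ℂ →₀ ℤ, (∀ v, v ∉ S → IsDivisorOne F v (c v)) ∧ Bdd S c ∧
          ∀ i, i ≤ 2 * d → ∀ s : ℂ, (i : ℝ) / 2 + 1 < s.re →
            LH S α i s = LW S c (i + 2 * a) (s + a) ^ (-(-1 : ℤ) ^ i) := by
  obtain ⟨M, a, T, F, hT, hF1, hF2, hF⟩ := smooth_cubic (Nat.succ_pos n) X hom d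
  refine ⟨M, a, F, hF1, hF2, fun S N α hα => ⟨fun v => cU (nv v) a T (cX d (α v)), fun v hv => ?_,
    cU_bdd (cX_bdd S d α) a T, fun i hi s hs => ?_⟩⟩
  · obtain ⟨h1, h2⟩ := (hα v hv).divisor
    exact divisor_of_count hF h1 h2
  · exact identity (fun v hv => (hα v hv).1) a hT hi hs

end Pool.Agent.V8H32.CU
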